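import Pool.Agent.R370.HS.F

/-!
# Atypical special points suffice for the Zilber–Pink conjecture for variations of Hodge structure

Let `K` be an uncountable algebraically closed field, for instance the field of complex numbers, and
let `X` be a quasi-projective variety over `K` with a special structure: a countable collection `𝒮`
of subvarieties (irreducible Zariski closed subsets) of `X`, called special, which contains the
irreducible components of the intersections of its members, and a function `h` on `𝒮`. The example
to have in mind: `X` carries a polarizable variation of Hodge structure with finite period map, `𝒮`
are the special subvarieties together with `X`, and `h S` is the dimension of the Mumford–Tate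
domain of `S`. For a subvariety `A` of `X` put `defect A = h (hull A) - dim A`, where `hull A` is the
smallest special subvariety containing `A`.

For a subvariety `V` of `X` the special subvarieties of `V` (for the restricted variation) are the
subvarieties `Z` of `V` which are components of `V ∩ hull Z`; such a `Z` is atypical if
`defect Z < defect V`.

Theorem. The following are equivalent.
(1) `PointsNotDense`: for every subvariety `V` the atypical special points of `V` (the atypical
special subvarieties of dimension zero) are not Zariski dense in `V`.
(2) `AtypicalNotDense`: for every `V` the union of the atypical special subvarieties of `V` is not
Zariski dense in `V`.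
(3) `FinitelyManyMaximal`: every `V` has only finitely many maximal atypical special subvarieties.
(4) `FinitelyManyOptimal`: every `V` has only finitely many optimal subvarieties `A` (all larger
subvarieties of `V` have larger defect).
If the dimension inequality `DimIneq` holds (the codimension in `V` of a special subvariety `Z` of
`V` is at most the codimension of its Mumford–Tate domain; for variations of Hodge structure this
holds, because the domain is smooth), then (1)-(4) are equivalent to
(5) `WithSingularLocus`: for every `V` and every Zariski closed set `E` (for instance the singular
locus of `V` in the sense of the problem) the special subvarieties of `V` which are atypical or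
contained in `E` are contained in finitely many of them. This is the question Q1 for all the
restrictions of the variation.

The main point is (1) implies (4): infinitely many optimal subvarieties of `V` of positive dimension
give infinitely many on a component of a very general hyperplane section, of dimension one less
(`Pool.Agent.R370.HS.E`), and so infinitely many optimal points on some subvariety. The function `h`
is arbitrary here. The definitions are in `Pool.Agent.R948.ZPa` and `Pool.Agent.R370.HS.{B,C,F}`;
points of projective space are nonzero vectors up to scalars, subsets are given by their cones.
-/

set_option autoImplicit false

open Pool.Agent.R948.ZP Pool.Agent.R370.HS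

/-- **Atypical special points suffice.** -/
theorem Pool.Agent.Results.MP_0704bf_ag.AtypicalPoints.result
    (K : Type) [Field K] [IsAlgClosed K] [Uncountable K] (ι : Type) [Fintype ι]
    (X : Set (ι → K)) (hX : QuasiProjective X)
    (𝒮 : Set (Set (ι → K))) (h𝒮 : SpecialStructure X 𝒮) (h : Set (ι → K) → ℤ) :
    List.TFAE [PointsNotDense X 𝒮 h, AtypicalNotDense X 𝒮 h, FinitelyManyMaximal X 𝒮 h,
      FinitelyManyOptimal X 𝒮 h] ∧
    (DimIneq X 𝒮 h → (PointsNotDense X 𝒮 h ↔ WithSingularLocus X 𝒮 h)) :=
  ⟨formsH hX h𝒮, fun hd => ((formsH hX h𝒮).out 0 2).trans (singular_iff hX h𝒮 hd)⟩
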