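import Pool.Agent.R781.FD.H

/-!
# The atypical Hodge loci of all restrictions of a variation, over a field of definition

Let `k ⊆ K` be algebraically closed fields, `K` uncountable, for instance `K = ℂ` and `k` countable.
Let `X` be a quasi-projective variety over `K` with a special structure: a countable collection `𝒮` of
subvarieties (irreducible Zariski closed subsets) of `X`, called special, which contains the
irreducible components of the intersections of its members, and a function `h` on `𝒮`. We assume that
the special subvarieties are defined over `k`. The example to have in mind: `X` carries a polarizable
variation of Hodge structure with finite period map, `𝒮` are the special subvarieties together with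
`X`, `h S` is the dimension of the Mumford–Tate domain of `S`, and `k` is a countable algebraically
closed field over which the countably many special subvarieties are defined.

For a subvariety `A` of `X` put `defect A = h (hull A) - dim A`, where `hull A` is the smallest
special subvariety containing `A`. For a subvariety `V` of `X` the special subvarieties of `V` (for
the restricted variation) are the subvarieties `Z` of `V` which are components of `V ∩ hull Z`; such a
`Z` is atypical if `defect Z < defect V`. `FinMaxH X 𝒮 h Q P` says that every `V` with the property `Q`
has only finitely many maximal atypical special subvarieties with the property `P`, and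
`FinOpt X 𝒮 h Q P` says the same of optimal subvarieties (all larger subvarieties of `V` have larger
defect).

Theorem. (1) The question Q1 for all the restrictions of the variation to subvarieties `V` over `K`,
in each of its forms (finitely many maximal atypical special subvarieties; the atypical special
points, or subvarieties, are not Zariski dense; finitely many optimal subvarieties) is equivalent to
Q1 for all `V` defined over `k` (non-density of the atypical locus, finitely many maximal atypical
special subvarieties, finitely many optimal subvarieties).
(2) If the dimension inequality `DimIneq` holds (the codimension in `V` of a special subvariety of `V`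
is at most the codimension of its Mumford–Tate domain), this is true also for the form of the
problem, with singular loci: for all `V` and closed sets `E` the special subvarieties of `V` which are
atypical or contained in `E` are contained in finitely many of them. It suffices to know this for
`V` and `E` defined over `k`.
(3) If `k` is countable, the following are equivalent:
(a) every `V` defined over `k` has only finitely many maximal atypical special subvarieties of
positive dimension;
(b) every `V` over `K` has only finitely many maximal atypical special subvarieties of positive
dimension;
(c) every `V` over `K` has only finitely many maximal atypical special subvarieties which are not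
defined over `k`;
(d) the same as (c), only for the `V` which are not defined over `k`;
(e) every `V` which is not defined over `k` has only finitely many optimal points which are not
defined over `k`.
(4) Every `V` over `K` has only finitely many optimal points defined over `k` if and only if this holds
for the `V` defined over `k`.

So Q1 for all restrictions is the conjunction of its part over `k` of positive dimension, which is
equivalent to the part on transcendental points, and its part on points over `k`.

The proof: see `Pool.Agent.R781.FD.C` (outside of a proper closed subset of `V` the closure over `k` of
a subvariety `A` of `V` has dimension at least `dim A + dim V₀ - dim V`, where `V₀` is the closure of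
`V` over `k`), `Pool.Agent.R781.FD.D` and `E` (very general hyperplane sections, for (e) implies (b)).
-/

set_option autoImplicit false

open Pool.Agent.R948.ZP Pool.Agent.R370.HS Pool.Agent.R781.FD

/-- **The atypical Hodge loci of all restrictions, over a field of definition.** -/
theorem Pool.Agent.Results.MP_0704bf_ag.RestrictionsOverSubfields.result
    (K : Type) [Field K] [IsAlgClosed K] [Uncountable K] (ι : Type) [Fintype ι]
    (X : Set (ι → K)) (hX : QuasiProjective X)
    (𝒮 : Set (Set (ι → K))) (h𝒮 : SpecialStructure X 𝒮) (h : Set (ι → K) → ℤ)
    (k : Type) [Field k] [IsAlgClosed k] [Algebra k K] (hk : ∀ S ∈ 𝒮, Def k S) :
    List.TFAE [PointsNotDense X 𝒮 h, AtypicalNotDense X 𝒮 h, FinitelyManyMaximal X 𝒮 h,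
      FinitelyManyOptimal X 𝒮 h, AtypicalNotDenseOver k X 𝒮 h, FinitelyManyMaximalOver k X 𝒮 h,
      FinitelyManyOptimalOver k X 𝒮 h] ∧
    (DimIneq X 𝒮 h → (FinitelyManyMaximal X 𝒮 h ↔ WithSingularLocus X 𝒮 h) ∧
      (WithSingularLocus X 𝒮 h ↔ WithSingularLocusOver k X 𝒮 h)) ∧
    (Countable k → List.TFAE [FinMaxH X 𝒮 h (Def k) (fun A => 1 ≤ dim A),
      FinMaxH X 𝒮 h (fun _ => True) (fun A => 1 ≤ dim A),
      FinMaxH X 𝒮 h (fun _ => True) (fun A => ¬ Def k A),
      FinMaxH X 𝒮 h (fun V => ¬ Def k V) (fun A => ¬ Def k A),
      FinOpt X 𝒮 h (fun V => ¬ Def k V) (fun A => dim A = 0 ∧ ¬ Def k A)]) ∧
    (FinOpt X 𝒮 h (fun _ => True) (fun A => dim A = 0 ∧ Def k A) ↔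
      FinOpt X 𝒮 h (Def k) (fun A => dim A = 0)) :=
  ⟨forms_over hX h𝒮 hk, fun hdi => ⟨singular_iff hX h𝒮 hdi, singular_over_iff hX h𝒮 hk hdi⟩,
    fun _ => finMaxH_tfae hX h𝒮 hk, rational_iff hX h𝒮 hk⟩
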