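import Pool.Agent.R370.TZ.R

/-!
# The atypical Hodge locus of subvarieties which are not defined over the field of definition

Let `k ⊆ K` be algebraically closed fields, for instance `K = ℂ` and `k` countable. Let `X` be a
quasi-projective variety over `K` with a special structure: a countable collection `𝒮` of subvarieties
(irreducible Zariski closed subsets) of `X`, called special, which contains the irreducible components
of the intersections of its members, and a function `h` on `𝒮`. We assume that the special
subvarieties are defined over `k`. The example to have in mind: `X` carries a polarizable variation of
Hodge structure with finite period map, `𝒮` are the special subvarieties together with `X`, `h S` is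
the dimension of the Mumford–Tate domain of `S`, and `k` is a countable field of definition of the
countably many special subvarieties.

For a subvariety `A` of `X` put `defect A = h (hull A) - dim A` (`hdefect`), where `hull A` is the
smallest special subvariety containing `A`. For a subvariety `V` of `X` the special subvarieties of
`V` (for the restricted variation) are the subvarieties `Z` of `V` which are components of
`V ∩ hull Z` (`SpecialIn`); such a `Z` is atypical (`AtypicalSpecial`) if `defect Z < defect V`. Let
`clo k X V` be the closure of `V` over `k`, the smallest closed subset of `X` which is defined over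
`k` and contains `V`, and `gap k X V = dim (clo k X V) - dim V`. It is `0` iff `V` is defined over
`k`.

Theorem. Let `V` be a subvariety over `K`, contained in a special one, `V₀ = clo k X V` its closure
over `k`, `r = gap k X V`, and let `d` be an integer. If the atypical special subvarieties of `V` of
codimension at most `d` in `V` are Zariski dense in `V`, then the atypical special subvarieties of
`V₀` which are defined over `k`, of dimension at least `r` and codimension at most `d` in `V₀`, are
Zariski dense in `V₀`.

(For `d ≥ dim V` there is no condition on the codimension in `V`, and then there is none in `V₀`, as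
`dim Z ≥ r` means that the codimension of `Z` in `V₀` is at most `dim V`.) So if `V` is not defined over
`k` and its atypical Hodge locus is Zariski dense (so that Q1 fails for `V`), then already the
POSITIVE DIMENSIONAL atypical Hodge locus of `V₀`, a variety over `k`, is Zariski dense. If the adjoint
generic Mumford–Tate group of `V` is simple over the rational numbers, this is impossible by the
theorem of Baldi, Klingler and Ullmo on the geometric part of the Zilber–Pink conjecture (which is not
used or proved here). So the atypical Hodge locus of such a `V` is not Zariski dense.

The proof: outside of a proper closed subset `D` of `V` the dimension over `k` of the subvarieties `A`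
of `V` is at least `dim A + r` (`exists_jump`). So the closure over `k` of an atypical subvariety which
is not contained in `D` has small defect. A closed subset of `V₀` which contains the closures over `k`
of many subvarieties of `V`, but not `V₀`, gives a proper closed subset of `V` which contains these
subvarieties (`exists_cover`). The definitions are in `Pool.Agent.R948.ZPa`, `Pool.Agent.R948.ZPe`,
`Pool.Agent.R370.HS.{B,C,F}` and `Pool.Agent.R370.TZ.P`; points of projective space are nonzero
vectors up to scalars, subsets are given by their cones.
-/

set_option autoImplicit false

open Pool.Agent.R948.ZP Pool.Agent.R370.HS Pool.Agent.R370.TZ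

/-- **The atypical Hodge locus of `V` and of its closure over `k`.** -/
theorem Pool.Agent.Results.MP_0704bf_ag.TranscendentalSubvarieties.result
    (k K : Type) [Field k] [Field K] [Algebra k K] [IsAlgClosed k] [IsAlgClosed K]
    (ι : Type) [Fintype ι] (X : Set (ι → K)) (hX : QuasiProjective X)
    (𝒮 : Set (Set (ι → K))) (h𝒮 : SpecialStructure X 𝒮) (hk : ∀ S ∈ 𝒮, Def k S)
    (h : Set (ι → K) → ℤ) (T : Set (ι → K)) (hT : T ∈ 𝒮) (V : Set (ι → K))
    (hV : Subvariety X V) (hVT : V ⊆ T) :
    (0 ≤ gap k X V ∧ (gap k X V = 0 ↔ Def k V)) ∧
    ∀ d : ℤ, Dense X V (⋃₀ {Z | AtypicalSpecial X 𝒮 h V Z ∧ dim V - dim Z ≤ d}) →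
      Dense X (clo k X V) (⋃₀ {Z | AtypicalSpecial X 𝒮 h (clo k X V) Z ∧ Def k Z ∧
        gap k X V ≤ dim Z ∧ dim (clo k X V) - dim Z ≤ d}) :=
  ⟨⟨gap_nonneg hX hV (h𝒮.subvariety _ hT) (hk T hT) hVT,
    gap_eq_zero hX hV (h𝒮.subvariety _ hT) (hk T hT) hVT⟩,
    fun d hd => atypical_closure hX h𝒮 hk hT hV hVT h d hd⟩
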