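import Pool.Agent.R424.TG.Hdg

/-!
# MP_0704bf_ag: Zilber-Pink for the variations of Hodge structure of almost all members of arbitrary
one-parameter families of tuples of elliptic curves, from their tropicalizations

**The variations.** Let `K ⊂ ℂ` be a countable field, let `P` be a finite system of polynomials in
`s_1, …, s_N` with coefficients in `K[t]`, and let `A_i`, `B_i` (`i ≤ n`) be polynomials in
`s_1, …, s_N` with coefficients in `K[t]`. For `t ∈ ℂ` let `S_t ⊂ ℂ^N` be the set of the points `s` with
`P(s) = 0` and `4 A_i(s)³ + 27 B_i(s)² ≠ 0` for all `i` (`OnS`; the coefficients are evaluated at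
`t`). Over `S_t` there are the elliptic curves

  `E_i : y² = x³ + A_i x + B_i`

and the polarizable variation of Hodge structure `V_t = ⊕ R¹π_{i*} ℤ` (on the smooth part of `S_t`, if
`S_t` is not smooth). Every family of `n`-tuples of elliptic curves over varieties `S_t` depending on a
parameter `t` is of this form after shrinking the `S_t`. The period domain of `V_t` is the product
`D` of `n` upper half planes, `Γ = SL_2(ℤ)^n`. By the elliptic modular function `jj = j = E₄³ / Δ` the
quotient `Γ \ D` is identified with `Y(1)^n = ℂ^n`, and the period map `Φ` is given by the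
`j`-invariants `6912 A_i³ / (4 A_i³ + 27 B_i²)` (`period`). The Hodge subvarieties `Γ' \ D'` of
`Γ \ D` are the special subvarieties `Z` of `Y(1)^n` (`SpecialVariety`): `Z.locus` is the set of the
points `x` with `x_i` a constant for the constant coordinates, and `x_i = j (g_i z_c)` for the
coordinates of class `c`, where `z_1, …, z_r` are free in the upper half plane and `g_i` is a fixed
integral matrix of positive determinant. (The constants are special points, or more generally
integral over the ring `ℤ[Γ]` generated by a given finite set `Γ` of numbers algebraic over `K`.)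

**Tropicalization.** Let `E` be a finite system of polynomials in `x_1, …, x_n`, `s_1, …, s_N` with
coefficients in `K[t]`, which vanish at all points `(Φ(s), s)`, `s ∈ S_t`. For instance `E` consists
of `P` and of the polynomials `(4 A_i³ + 27 B_i²) x_i - 6912 A_i³`, but one can add other polynomials
with this property. For `α ∈ ℂ` the set `Trop α E` consists of the points `w` of `(ℚ ∪ {∞})^(n+N)` such
that for every polynomial of the system the minimum of the numbers `ord_α (coefficient) + β · w`
(over the exponents `β` of its monomials) is attained at two different exponents or is infinite.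

**Types of special subvarieties.** A special subvariety `Z` of `Y(1)^n` has a type `(cls, d)`: the
partition `cls` of the coordinates which are not constant on `Z` into `r = dim Z` classes, and the
determinants `d_i > 0` of the matrices which define `Z`. A point `w` is compatible with the type
(`Compatible`) if `w_i ≥ 0` for the constant coordinates, and for coordinates `i`, `j` in the same
class either `w_i ≥ 0` and `w_j ≥ 0`, or `w_i < 0`, `w_j < 0` and `d_i d_j w_i w_j` is the square of a
rational number. (In the Lean statement there are `0` torus coordinates and the type has a third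
entry `L`, a subspace of `ℚ^0`.)

**Theorem.** Let `m` be an integer, the dimension of `Φ(S_t)`, and `D` a finite set of numbers algebraic
over `K`, such that for every type of dimension `r < n - m` there are at least `σ` elements `α` of `D`
such that `Trop α E` contains no compatible point (`Generic`). Then every irreducible constructible
subset `W` of `Φ(S_t) ∩ Γ' \ D'` satisfies `dim W + (n - m) ≤ dim Γ' \ D'` (`NoAtypicalHodge`)
1. for all `t` transcendental over `K`, that is for all but countably many `t ∈ ℂ`, if `σ = 1`,
2. for all but finitely many `t` in any finitely generated field of numbers algebraic over `K`, for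
   instance in any number field, if `σ = 3`,
3. for all but finitely many `t` in any finitely generated ring of numbers algebraic over `K`, if
   `σ = 2`, and for all but finitely many of its units if `σ = 1`, with `0 ∉ D`.

This says that `codim Φ(Z) ≥ codim Φ(S_t) + codim Γ' \ D'` for all special subvarieties `Z` of `S_t`
for `V_t` (`Z` a component of `Φ⁻¹(Γ' \ D')`), if `dim Φ(S_t) = m`. So there is no atypical special
subvariety, except possibly those contained in the singular locus `S^sing`, a proper closed subset,
in which every special subvariety is atypical by definition. For `Z = S_t` one gets that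
`Φ(S_t)` is contained in no proper special subvariety if `n > m`.

The starting file `RandomWeierstrassFamilies` treats a positive proportion of the tuples of
Weierstrass families with integral coefficients over a fixed projective variety. Here the base and
the elliptic curves are arbitrary and the parameters are all but finitely many numbers of a finitely
generated field; the condition is a condition on the tropicalizations at finitely many parameters.

The proof: if `t - α` is not a unit in a finitely generated ring then there is a valuation ring of
`ℂ` in which `t` is near to `α`, and such that given algebraically independent `j`-invariants are units.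
The values of the coordinates of a point `(Φ(s), s)` with `Φ(s) ∈ Z` can be replaced by rational numbers,
by linear programming, and this gives a point of `Trop α E` which is compatible with a type of smaller
dimension. The exceptional `t` are solutions of unit equations.
-/

set_option autoImplicit false

namespace Pool.Agent.Results.MP_0704bf_ag.TropicalWeierstrassFamilies

open MvPolynomial Pool.Agent.R424.TG
open Pool.Agent.Y152.RP.FamM (evalAt)

/-- Zilber-Pink for the variations of Hodge structure of the members of arbitrary one-parameter
families of `n`-tuples of elliptic curves. -/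
theorem result (K : Subfield ℂ) [Countable K] (κ₀ κ : Type) [Finite κ] (n N m : ℕ)
    (P : κ₀ → MvPolynomial (Fin N) (Polynomial K))
    (A B : Fin n → MvPolynomial (Fin N) (Polynomial K))
    (E : κ → MvPolynomial ((Fin n ⊕ Fin 0) ⊕ Fin N) (Polynomial K))
    (hE : ∀ (t : ℂ) (s : Fin N → ℂ), OnS (evalAt K t) P A B (fun j : Fin 0 => j.elim0) s → ∀ q,
      eval₂ (evalAt K t)
        (Sum.elim (period (evalAt K t) A B (fun j : Fin 0 => j.elim0) s) s) (E q) = 0)
    (D : Finset ℂ) (hD : ∀ α ∈ D, IsAlgebraic K α) (Γ : Finset ℂ)
    (hΓ : ∀ γ ∈ Γ, IsAlgebraic K γ) (F : Finset ℂ) (hF : ∀ z ∈ F, IsAlgebraic K z) :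
    (Generic m 1 E D → ∀ t : ℂ, Transcendental K t → ∀ (K₁ : Subfield ℂ) [Countable K₁],
      K ≤ K₁ → t ∈ K₁ →
        NoAtypicalHodge (algebraMap (Algebra.adjoin ℤ (Γ : Set ℂ)) ℂ) K₁ m
          (image (evalAt K t) P A B fun j : Fin 0 => j.elim0)) ∧
    (Generic m 3 E D →
      {t : ℂ | t ∈ Subfield.closure (F : Set ℂ) ∧
        ¬ NoAtypicalHodge (algebraMap (Algebra.adjoin ℤ (Γ : Set ℂ)) ℂ) K m
          (image (evalAt K t) P A B fun j : Fin 0 => j.elim0)}.Finite) ∧
    (Generic m 2 E D →
      {t : ℂ | t ∈ Subring.closure (F : Set ℂ) ∧
        ¬ NoAtypicalHodge (algebraMap (Algebra.adjoin ℤ (Γ : Set ℂ)) ℂ) K m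
          (image (evalAt K t) P A B fun j : Fin 0 => j.elim0)}.Finite) ∧
    (Generic m 1 E (D.erase 0) →
      {t : ℂ | (t ∈ Subring.closure (F : Set ℂ) ∧ t ≠ 0 ∧ t⁻¹ ∈ Subring.closure (F : Set ℂ)) ∧
        ¬ NoAtypicalHodge (algebraMap (Algebra.adjoin ℤ (Γ : Set ℂ)) ℂ) K m
          (image (evalAt K t) P A B fun j : Fin 0 => j.elim0)}.Finite) := by
  obtain ⟨h1, h2, h3, h4⟩ := familyT K κ n 0 N m E D hD Γ hΓ F hF
  have hsub : ∀ t : ℂ, image (evalAt K t) P A B (fun j : Fin 0 => j.elim0) ⊆ member t E :=
    fun t => image_subset t P A B _ E (hE t)
  refine ⟨fun hg t ht K₁ _ hK htK => noAtypicalHodge_of (h1 hg t ht K₁ hK htK) (hsub t),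
    fun hg => (h2 hg).subset ?_, fun hg => (h3 hg).subset ?_, fun hg => (h4 hg).subset ?_⟩
  · rintro t ⟨ht, hno⟩
    exact ⟨ht, fun h => hno (noAtypicalHodge_of h (hsub t))⟩
  · rintro t ⟨ht, hno⟩
    exact ⟨ht, fun h => hno (noAtypicalHodge_of h (hsub t))⟩
  · rintro t ⟨ht, hno⟩
    exact ⟨ht, fun h => hno (noAtypicalHodge_of h (hsub t))⟩

end Pool.Agent.Results.MP_0704bf_ag.TropicalWeierstrassFamilies
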